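import Mathlib
import Pool.Agent.Lib.MP_0a1b52_lc_RP.Main2

set_option autoImplicit false

/-!
# Circuits for the clique function and the reading patterns of their refutations

The definitions (`EdgeVar`, `graphOf`, `HasClique`, `Clq`, `Gate`, `Circuit`, `Circuit.IsEval`,
`Circuit.Accepts`, `Circuit.Refutes`) are in `Pool/Agent/Lib/MP_0a1b52_lc_FP/Defs.lean`.
-/

namespace Pool.Agent.Results.MP_0a1b52_lc.ReadingPatterns

open Pool.Agent.FP

open Classical in
/-- **Circuits for the clique function and reading patterns.**  For every `ε > 0` there is a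
`c > 0` such that for all large `n` there are graphs `Q 0, …, Q (N - 1)` on `n` vertices (`N > 0`,
repetitions allowed), none with a clique of more than `√n` vertices, with the following property.

Let `β` be a finite set of sets (blocks) of variables, each block with at most `n² / log₂ n`
variables, the sizes of the blocks summing to at most `c n² log₂ n`; let `D` be a circuit with `s`
gates which accepts all graphs with a clique of more than `√n` vertices, and let
`r log₂ s ≤ n ^ (2 - ε)`.  Then at most `N * 2 ^ (- n ^ (2 - ε))` of the graphs `Q i` have a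
refutation tree in `D` whose list of variables is the concatenation of `r` (possibly empty) lists,
each of which has all its variables in one block of `β`. -/
theorem result (ε : ℝ) (hε : 0 < ε) : ∃ c : ℝ, 0 < c ∧ ∃ n₀ : ℕ, ∀ n ≥ n₀,
    ∃ (N : ℕ) (Q : Fin N → EdgeVar n → Bool), 0 < N ∧ (∀ i, ¬ Clq (Q i)) ∧
      ∀ β : Finset (Finset (EdgeVar n)),
      (∀ B ∈ β, (B.card : ℝ) ≤ (n : ℝ) ^ 2 / Real.logb 2 n) →
      ∑ B ∈ β, (B.card : ℝ) ≤ c * (n : ℝ) ^ 2 * Real.logb 2 n →
      ∀ (s r : ℕ) (D : Circuit (EdgeVar n) s), (∀ x, Clq x → D.Accepts x) →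
        r * Real.logb 2 s ≤ (n : ℝ) ^ (2 - ε) →
        ((Finset.univ.filter fun i => ∃ P : List (List (EdgeVar n)), P.length = r ∧
          D.Refutes (Q i) D.out P.flatten ∧ ∀ l ∈ P, ∃ B ∈ β, ∀ v ∈ l, v ∈ B).card : ℝ) ≤
          N * (2 : ℝ) ^ (-((n : ℝ) ^ (2 - ε))) :=
  Pool.Agent.RP.main2 ε hε

end Pool.Agent.Results.MP_0a1b52_lc.ReadingPatterns
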